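import Pool.Agent.Helper74.CA.Stmts

set_option autoImplicit false

namespace Pool.Agent.Helper74.CA

variable {k : Type} [Field k] {L : Type} [LieRing L] [LieAlgebra k L] {n : ℕ}

theorem LB.two (d : LB k L n) : (2 : k) ≠ 0 := by
  intro h
  have h3 := d.c3
  have : (1 : k) = 0 := by linear_combination h3 - h
  exact one_ne_zero this

theorem LB.neg_one (d : LB k L n) : (-1 : k) ≠ 1 := by
  intro h
  exact d.two (by linear_combination -h)

/-- three times anything is zero -/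
theorem LB.three (d : LB k L n) (x : L) : x + x + x = 0 := by
  have h : (3 : k) • x = x + x + x := by
    rw [show (3 : k) = 1 + 1 + 1 by norm_num, add_smul, add_smul, one_smul]
  rw [← h, d.c3, zero_smul]

theorem LB.eq_zero_of_neg (d : LB k L n) {x : L} (h : x = -x) : x = 0 := by
  have h1 : (2 : k) • x = 0 := by
    rw [show (2 : k) = 1 + 1 by norm_num, add_smul, one_smul]
    nth_rewrite 1 [h]
    exact neg_add_cancel x
  exact (smul_eq_zero.1 h1).resolve_left d.two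

/-- `a - 1` is surjective on `G 1` -/
theorem LB.surj (d : LB k L n) {x : L} (hx : x ∈ d.G 1) : ∃ y ∈ d.G 1, d.a y - y = x := by
  have hpow : ∀ (i : ℕ) (u : L), u ∈ d.G 1 → (d.a ^ i) u ∈ d.G 1 := by
    intro i u hu
    induction i with
    | zero => simpa using hu
    | succ i ih =>
      rw [pow_succ']
      exact d.aG 1 _ ih
  have hsum : ∀ u ∈ d.G 1, ∑ i ∈ Finset.range n, (d.a ^ i) u = 0 := by
    intro u hu
    apply d.fix
    · exact Submodule.sum_mem _ fun i _ => hpow i u hu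
    · rw [map_sum]
      have h1 : ∀ i, d.a ((d.a ^ i) u) = (d.a ^ (i + 1)) u := fun i => by
        rw [pow_succ']
        rfl
      simp only [h1]
      have h2 := Finset.sum_range_succ (fun i => (d.a ^ i) u) n
      have h3 := Finset.sum_range_succ' (fun i => (d.a ^ i) u) n
      rw [h2, d.an, pow_zero] at h3
      exact (add_right_cancel h3).symm
  have hdif : ∀ i : ℕ, ∃ y ∈ d.G 1, d.a y - y = (d.a ^ i) x - x := by
    intro i
    induction i with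
    | zero => exact ⟨0, Submodule.zero_mem _, by simp⟩
    | succ i ih =>
      obtain ⟨y, hy, hy'⟩ := ih
      refine ⟨y + (d.a ^ i) x, Submodule.add_mem _ hy (hpow i x hx), ?_⟩
      rw [map_add, pow_succ', Module.End.mul_apply]
      have : d.a y + d.a ((d.a ^ i) x) - (y + (d.a ^ i) x) =
          (d.a y - y) + (d.a ((d.a ^ i) x) - (d.a ^ i) x) := by abel
      rw [this, hy']
      abel
  choose f hf hf' using hdif
  refine ⟨-((n : k)⁻¹ • ∑ i ∈ Finset.range n, f i), ?_, ?_⟩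
  · exact Submodule.neg_mem _ (Submodule.smul_mem _ _ (Submodule.sum_mem _ fun i _ => hf i))
  · rw [map_neg, map_smul, map_sum]
    have h1 : -((n : k)⁻¹ • ∑ i ∈ Finset.range n, d.a (f i)) -
        -((n : k)⁻¹ • ∑ i ∈ Finset.range n, f i) =
        -((n : k)⁻¹ • ∑ i ∈ Finset.range n, (d.a (f i) - f i)) := by
      rw [Finset.sum_sub_distrib, smul_sub]
      abel
    rw [h1, Finset.sum_congr rfl fun i _ => hf' i, Finset.sum_sub_distrib, hsum x hx, zero_sub,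
      Finset.sum_const, Finset.card_range, smul_neg, neg_neg, ← Nat.cast_smul_eq_nsmul k, smul_smul,
      inv_mul_cancel₀ d.n0, one_smul]

theorem LB.T1 (d : LB k L n) {x y z : L} (hx : x ∈ d.G 1) (hy : y ∈ d.G 1) (hz : z ∈ d.G 1) :
    ⁅⁅x, y⁆, z⁆ = -⁅⁅x, z⁆, y⁆ := by
  obtain ⟨u, hu, rfl⟩ := d.surj hx
  exact eq_neg_of_add_eq_zero_left (d.T 1 le_rfl u hu y hy z hz)

theorem LB.T1r (d : LB k L n) {x y : L} (hx : x ∈ d.G 1) (hy : y ∈ d.G 1) : ⁅⁅x, y⁆, y⁆ = 0 :=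
  d.eq_zero_of_neg (d.T1 hx hy hy)

theorem LB.T1l (d : LB k L n) {x y : L} (hx : x ∈ d.G 1) (hy : y ∈ d.G 1) : ⁅⁅x, y⁆, x⁆ = 0 := by
  rw [← lie_skew x y, neg_lie, d.T1r hy hx, neg_zero]

theorem LB.cyc (d : LB k L n) {x y z : L} (hx : x ∈ d.G 1) (hy : y ∈ d.G 1) (hz : z ∈ d.G 1) :
    ⁅⁅x, y⁆, z⁆ = ⁅⁅y, z⁆, x⁆ := by
  rw [← lie_skew x y, neg_lie, d.T1 hy hx hz, neg_neg]

/-- the identity `T` for eigenvectors -/
theorem LB.Tev (d : LB k L n) {i : ℕ} (hi : 1 ≤ i) {ζ : k} (hζ : ζ ≠ 1) {x y z : L}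
    (hx : Ev d i ζ x) (hy : y ∈ d.G 1) (hz : z ∈ d.G 1) : ⁅⁅x, y⁆, z⁆ = -⁅⁅x, z⁆, y⁆ := by
  have h0 : ζ - 1 ≠ 0 := sub_ne_zero.2 hζ
  have h1 : x = d.a ((ζ - 1)⁻¹ • x) - (ζ - 1)⁻¹ • x := by
    rw [map_smul, hx.2, ← smul_sub]
    have : ζ • x - x = (ζ - 1) • x := by rw [sub_smul, one_smul]
    rw [this, smul_smul, inv_mul_cancel₀ h0, one_smul]
  rw [h1]
  exact eq_neg_of_add_eq_zero_left (d.T i hi _ (Submodule.smul_mem _ _ hx.1) y hy z hz)

theorem LB.Tevr (d : LB k L n) {i : ℕ} (hi : 1 ≤ i) {ζ : k} (hζ : ζ ≠ 1) {x y : L}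
    (hx : Ev d i ζ x) (hy : y ∈ d.G 1) : ⁅⁅x, y⁆, y⁆ = 0 :=
  d.eq_zero_of_neg (d.Tev hi hζ hx hy hy)

theorem Ev.lie {d : LB k L n} {i j : ℕ} {ζ ξ : k} {x y : L} (hx : Ev d i ζ x) (hy : Ev d j ξ y) :
    Ev d (i + j) (ζ * ξ) ⁅x, y⁆ := by
  refine ⟨d.glie i j x hx.1 y hy.1, ?_⟩
  rw [d.alie, hx.2, hy.2, smul_lie, lie_smul, smul_smul]

theorem Ev.smul {d : LB k L n} {i : ℕ} {ζ : k} {x : L} (r : k) (hx : Ev d i ζ x) :
    Ev d i ζ (r • x) := by
  refine ⟨Submodule.smul_mem _ _ hx.1, ?_⟩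
  rw [map_smul, hx.2, smul_comm]

theorem Ev.add {d : LB k L n} {i : ℕ} {ζ : k} {x y : L} (hx : Ev d i ζ x) (hy : Ev d i ζ y) :
    Ev d i ζ (x + y) := by
  refine ⟨Submodule.add_mem _ hx.1 hy.1, ?_⟩
  rw [map_add, hx.2, hy.2, smul_add]

theorem LB.evE (d : LB k L n) (i : Fin 3) : Ev d 1 (-1) (d.e i) :=
  ⟨d.eG i, by rw [d.ea, neg_smul, one_smul]⟩

/-- Jacobi -/
theorem jac (x y z : L) : ⁅⁅x, y⁆, z⁆ = ⁅⁅x, z⁆, y⁆ + ⁅x, ⁅y, z⁆⁆ := by
  rw [leibniz_lie x y z, ← lie_skew y ⁅x, z⁆]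
  abel

end Pool.Agent.Helper74.CA
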