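import Pool.Agent.Helper74.CA.PURE

set_option autoImplicit false

namespace Pool.Agent.Helper74.CA

theorem p3b_fin : ∀ i j : Fin 3, ¬ j = i → j = i + 1 ∨ j = i + 1 + 1 := by decide

theorem p3b_P3 : ST_P3 := by
  intro L _ _ n d hC i j
  have hev : ∀ i, d.c i ∈ d.G 2 ∧ d.a (d.c i) = d.c i := fun i => by
    have := pure_evc d i
    exact ⟨this.1, by rw [this.2, one_smul]⟩
  have hz : d.e (i + 1 + 1) ∈ d.G 1 := d.eG _
  have z1 : ⁅d.e (i + 1 + 1), d.c i⁆ = -d.t := by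
    rw [← lie_skew, pure_t]
  by_cases hij : j = i
  · subst hij
    have h := hC _ hz _ (hev j).1 (hev j).2
    rw [z1, neg_lie, neg_lie, neg_eq_zero] at h
    rw [h, add_zero]
  · have z2 : ⁅d.e (i + 1 + 1), d.c j⁆ = 0 := by
      have hs : j = i + 1 ∨ j = i + 1 + 1 := p3b_fin i j hij
      rw [← lie_skew, neg_eq_zero]
      rcases hs with rfl | rfl
      · exact d.T1r (d.eG _) (d.eG _)
      · exact d.T1l (d.eG _) (d.eG _)
    obtain ⟨m1, f1⟩ := hev i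
    obtain ⟨m2, f2⟩ := hev j
    have hp := hC _ hz (d.c i + d.c j) (Submodule.add_mem _ m1 m2) (by rw [map_add, f1, f2])
    simp only [lie_add, z1, z2, add_zero, neg_lie, add_lie] at hp
    obtain ⟨A, hA⟩ : ∃ A, A = ⁅⁅d.t, d.c i⁆, d.c i⁆ := ⟨_, rfl⟩
    have hA0 : A = 0 := by
      have h := hC _ hz _ m1 f1
      rw [z1, neg_lie, neg_lie, neg_eq_zero, ← hA] at h
      exact h
    have hB : ⁅⁅d.t, d.c j⁆, d.c j⁆ = 0 := by
      have h3 : ⁅d.e (j + 1 + 1), d.c j⁆ = -d.t := by rw [← lie_skew, pure_t]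
      have h := hC _ (d.eG (j + 1 + 1)) _ m2 f2
      rw [h3, neg_lie, neg_lie, neg_eq_zero] at h
      exact h
    rw [← hA, hA0, hB] at hp
    simp only [neg_zero, zero_add, add_zero] at hp
    have h5 : -(⁅⁅d.t, d.c i⁆, d.c j⁆ + ⁅⁅d.t, d.c j⁆, d.c i⁆) = 0 := by
      rw [neg_add_rev, ← hp]
    exact neg_eq_zero.1 h5

end Pool.Agent.Helper74.CA
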