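import Pool.Agent.Helper74.CA.Lib

set_option autoImplicit false

namespace Pool.Agent.Helper74.CA

variable {k : Type} [Field k] {L : Type} [LieRing L] [LieAlgebra k L] {n : ℕ}

theorem pure_t (d : LB k L n) (s : Fin 3) : ⁅d.c s, d.e (s + 1 + 1)⁆ = d.t := by
  have h0 := d.eG 0
  have h1 := d.eG 1
  have h2 := d.eG 2
  fin_cases s
  · rfl
  · exact (d.cyc h0 h1 h2).symm
  · exact ((d.cyc h0 h1 h2).trans (d.cyc h1 h2 h0)).symm

theorem pure_evc (d : LB k L n) (s : Fin 3) : Ev d 2 1 (d.c s) := by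
  have h := (d.evE s).lie (d.evE (s + 1))
  rwa [show (-1 : k) * -1 = 1 by ring] at h

theorem pure_evt (d : LB k L n) : Ev d 3 (-1) d.t := by
  have h := (pure_evc d 0).lie (d.evE 2)
  rwa [one_mul] at h

/-- products with two of the generators -/
theorem pure_q (d : LB k L n) {i : ℕ} (hi : 1 ≤ i) {X : L} (hX : Ev d i (-1) X) (r : Fin 3) :
    ⁅⁅X, d.e r⁆, d.e (r + 1)⁆ = -⁅X, d.c r⁆ := by
  have h1 := d.Tev hi d.neg_one hX (d.eG r) (d.eG (r + 1))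
  have h2 := jac X (d.e r) (d.e (r + 1))
  have h3 := d.three ⁅⁅X, d.e r⁆, d.e (r + 1)⁆
  have h4 : ⁅X, d.c r⁆ = ⁅⁅X, d.e r⁆, d.e (r + 1)⁆ + ⁅⁅X, d.e r⁆, d.e (r + 1)⁆ := by
    have h5 : ⁅⁅X, d.e (r + 1)⁆, d.e r⁆ = -⁅⁅X, d.e r⁆, d.e (r + 1)⁆ := by rw [h1, neg_neg]
    rw [h5] at h2
    change ⁅X, ⁅d.e r, d.e (r + 1)⁆⁆ = _
    nth_rewrite 1 [h2]
    abel
  rw [h4]
  exact (neg_eq_of_add_eq_zero_right h3).symm

theorem pure_A (d : LB k L n) (h : P3 d) (s : Fin 3) : ⁅⁅d.t, d.c s⁆, d.c (s + 1)⁆ = 0 := by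
  obtain ⟨A, hA⟩ : ∃ A, A = ⁅⁅d.t, d.c s⁆, d.c (s + 1)⁆ := ⟨_, rfl⟩
  have hA' : ⁅⁅d.t, d.c (s + 1)⁆, d.c s⁆ = -A := by
    rw [hA]
    exact eq_neg_of_add_eq_zero_right (h s (s + 1))
  have e0 := d.eG s
  have e1 := d.eG (s + 1)
  have e2 := d.eG (s + 1 + 1)
  have c1 : ⁅d.c s, d.e (s + 1)⁆ = 0 := d.T1r e0 e1
  have t1 := pure_t d s
  -- the bracket of c s and c (s + 1)
  have b1 : ⁅d.c s, d.c (s + 1)⁆ = -⁅d.t, d.e (s + 1)⁆ := by
    have h1 := jac (d.c s) (d.e (s + 1)) (d.e (s + 1 + 1))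
    rw [c1, zero_lie, t1] at h1
    exact (neg_eq_of_add_eq_zero_right h1.symm).symm
  have b2 : ⁅⁅d.t, d.e (s + 1)⁆, d.t⁆ = A + A := by
    have h1 := jac d.t (d.c s) (d.c (s + 1))
    rw [← hA, hA', b1] at h1
    have h2 : ⁅⁅d.t, d.e (s + 1)⁆, d.t⁆ = -⁅d.t, ⁅d.t, d.e (s + 1)⁆⁆ := (lie_skew _ _).symm
    rw [lie_neg] at h1
    rw [h2, eq_sub_of_add_eq' h1.symm, sub_neg_eq_add]
  -- the other computation
  have X1 : Ev d 5 (-1) ⁅d.t, d.c s⁆ := by
    have := (pure_evt d).lie (pure_evc d s)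
    rwa [mul_one] at this
  have q1 := pure_q d (by norm_num) X1 (s + 1)
  rw [← hA] at q1
  have q2 := pure_q d (by norm_num) (pure_evt d) (s + 1)
  have b3 : ⁅⁅d.t, d.e (s + 1)⁆, d.c s⁆ = ⁅⁅d.t, d.c s⁆, d.e (s + 1)⁆ := by
    rw [jac d.t (d.e (s + 1)) (d.c s), ← lie_skew (d.e (s + 1)) (d.c s), c1, neg_zero, lie_zero,
      add_zero]
  have b4 : ⁅⁅d.t, d.e (s + 1)⁆, d.t⁆ = -A - A := by
    have h1 := jac ⁅d.t, d.e (s + 1)⁆ (d.c s) (d.e (s + 1 + 1))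
    rw [b3, q1, q2, neg_lie, hA', neg_neg, t1] at h1
    have h2 : ⁅⁅d.t, d.e (s + 1)⁆, d.t⁆ = (A + ⁅⁅d.t, d.e (s + 1)⁆, d.t⁆) - A := by abel
    rw [h2, ← h1]
  have h4 : A + A = -A - A := b2.symm.trans b4
  have h5 := d.three A
  have h6 : A = (A + A) - (-A - A) - (A + A + A) := by abel
  rw [← hA, h6, sub_eq_zero.2 h4, h5, sub_zero]

theorem pure_zero (d : LB k L n) (h : P3 d) (s r : Fin 3) : ⁅⁅d.t, d.c s⁆, d.c r⁆ = 0 := by
  have hs : r = s ∨ r = s + 1 ∨ s = r + 1 := by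
    revert r s
    decide
  rcases hs with rfl | rfl | rfl
  · have := h r r
    exact d.eq_zero_of_neg (eq_neg_of_add_eq_zero_left this)
  · exact pure_A d h s
  · have h1 := h r (r + 1)
    rw [pure_A d h r, zero_add] at h1
    exact h1

/-- extension of a property of brackets with the generators -/
theorem pure_ext (d : LB k L n) {S S' : Submodule k L} (h : ∀ x ∈ S, ∀ i, ⁅x, d.e i⁆ ∈ S') {x u : L}
    (hx : x ∈ S) (hu : Ev d 1 (-1) u) : ⁅x, u⁆ ∈ S' := by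
  have h1 : u ∈ Submodule.span k (Set.range d.e) :=
    d.espan u hu.1 (by rw [hu.2, neg_smul, one_smul])
  clear hu
  induction h1 using Submodule.span_induction with
  | mem y hy =>
    obtain ⟨i, rfl⟩ := hy
    exact h x hx i
  | zero => rw [lie_zero]; exact Submodule.zero_mem _
  | add y z _ _ hy hz => rw [lie_add]; exact Submodule.add_mem _ hy hz
  | smul a y _ hy => rw [lie_smul]; exact Submodule.smul_mem _ _ hy

/-- brackets with the generators on a span -/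
theorem pure_span (d : LB k L n) {s : Set L} {S' : Submodule k L}
    (h : ∀ x ∈ s, ∀ i, ⁅x, d.e i⁆ ∈ S') : ∀ x ∈ Submodule.span k s, ∀ i, ⁅x, d.e i⁆ ∈ S' := by
  intro x hx i
  induction hx using Submodule.span_induction with
  | mem y hy => exact h y hy i
  | zero => rw [zero_lie]; exact Submodule.zero_mem _
  | add y z _ _ hy hz => rw [add_lie]; exact Submodule.add_mem _ hy hz
  | smul a y _ hy => rw [smul_lie]; exact Submodule.smul_mem _ _ hy

theorem pure_fin (i j : Fin 3) : j = i ∨ j = i + 1 ∨ i = j + 1 := by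
  revert i j
  decide

/-- weight two -/
theorem pure_w2 (d : LB k L n) (i j : Fin 3) :
    ⁅d.e i, d.e j⁆ ∈ Submodule.span k (Set.range d.c) := by
  rcases pure_fin i j with rfl | rfl | rfl
  · rw [lie_self]; exact Submodule.zero_mem _
  · exact Submodule.subset_span ⟨i, rfl⟩
  · rw [← lie_skew]
    exact Submodule.neg_mem _ (Submodule.subset_span ⟨j, rfl⟩)

/-- weight three -/
theorem pure_w3 (d : LB k L n) (i j : Fin 3) : ⁅d.c i, d.e j⁆ ∈ Submodule.span k {d.t} := by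
  have hs : j = i ∨ j = i + 1 ∨ j = i + 1 + 1 := by
    revert i j
    decide
  rcases hs with rfl | rfl | rfl
  · have : ⁅d.c j, d.e j⁆ = 0 := d.T1l (d.eG j) (d.eG (j + 1))
    rw [this]; exact Submodule.zero_mem _
  · have : ⁅d.c i, d.e (i + 1)⁆ = 0 := d.T1r (d.eG i) (d.eG (i + 1))
    rw [this]; exact Submodule.zero_mem _
  · rw [pure_t]; exact Submodule.subset_span rfl

/-- two more -/
theorem pure_two (d : LB k L n) {i : ℕ} (hi : 1 ≤ i) {X : L} (hX : Ev d i (-1) X) (j l : Fin 3) :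
    ⁅⁅X, d.e j⁆, d.e l⁆ ∈ Submodule.span k (Set.range fun r => ⁅X, d.c r⁆) := by
  rcases pure_fin j l with rfl | rfl | rfl
  · rw [d.Tevr hi d.neg_one hX (d.eG l)]; exact Submodule.zero_mem _
  · rw [pure_q d hi hX]
    exact Submodule.neg_mem _ (Submodule.subset_span ⟨j, rfl⟩)
  · rw [d.Tev hi d.neg_one hX (d.eG (l + 1)) (d.eG l), pure_q d hi hX, neg_neg]
    exact Submodule.subset_span ⟨l, rfl⟩

theorem pure_PP3 (d : LB k L n) {u1 u2 u3 : L} (h1 : Ev d 1 (-1) u1) (h2 : Ev d 1 (-1) u2)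
    (h3 : Ev d 1 (-1) u3) : ⁅⁅u1, u2⁆, u3⁆ ∈ Submodule.span k {d.t} := by
  have a1 : u1 ∈ Submodule.span k (Set.range d.e) :=
    d.espan u1 h1.1 (by rw [h1.2, neg_smul, one_smul])
  have a2 : ⁅u1, u2⁆ ∈ Submodule.span k (Set.range d.c) := by
    refine pure_ext d (pure_span d ?_) a1 h2
    rintro x ⟨i, rfl⟩ j
    exact pure_w2 d i j
  refine pure_ext d (pure_span d ?_) a2 h3
  rintro x ⟨i, rfl⟩ j
  exact pure_w3 d i j

theorem pure_lie2 (d : LB k L n) {s : Set L} {i : ℕ} (hi : 1 ≤ i) (hs : ∀ x ∈ s, Ev d i (-1) x)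
    {S' : Submodule k L} (h : ∀ x ∈ s, ∀ r, ⁅x, d.c r⁆ ∈ S') {z u v : L}
    (hz : z ∈ Submodule.span k s) (hu : Ev d 1 (-1) u) (hv : Ev d 1 (-1) v) :
    ⁅⁅z, u⁆, v⁆ ∈ S' := by
  have h1 : ⁅z, u⁆ ∈ Submodule.span k {y | ∃ x ∈ s, ∃ j, y = ⁅x, d.e j⁆} := by
    refine pure_ext d (pure_span d ?_) hz hu
    intro x hx j
    exact Submodule.subset_span ⟨x, hx, j, rfl⟩
  refine pure_ext d (pure_span d ?_) h1 hv
  rintro y ⟨x, hx, j, rfl⟩ l
  have h2 := pure_two d hi (hs x hx) j l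
  refine (Submodule.span_le.2 ?_) h2
  rintro y ⟨r, rfl⟩
  exact h x hx r

theorem st_PURE : ST_PURE := by
  intro k _ L _ _ n d hP
  have key : ∀ j z, PP d j z → (j = 3 → z ∈ Submodule.span k {d.t}) ∧
      (j = 5 → z ∈ Submodule.span k (Set.range fun r => ⁅d.t, d.c r⁆)) ∧ (j = 7 → z = 0) ∧
      (j = 4 → ∃ y u, y ∈ Submodule.span k {d.t} ∧ Ev d 1 (-1) u ∧ z = ⁅y, u⁆) ∧
      (j = 6 → ∃ y u, y ∈ Submodule.span k (Set.range fun r => ⁅d.t, d.c r⁆) ∧ Ev d 1 (-1) u ∧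
        z = ⁅y, u⁆) ∧ 3 ≤ j := by
    intro j z hz
    induction hz with
    | three u1 u2 u3 h1 h2 h3 =>
      refine ⟨fun _ => pure_PP3 d h1 h2 h3, ?_, ?_, ?_, ?_, ?_⟩ <;> omega
    | succ j z u hz hu ih =>
      obtain ⟨i3, i5, i7, i4, i6, ij⟩ := ih
      refine ⟨?_, ?_, ?_, ?_, ?_, ?_⟩
      · intro h; omega
      · intro h
        obtain ⟨y, v, hy, hv, rfl⟩ := i4 (by omega)
        refine pure_lie2 d (s := {d.t}) (i := 3) (by norm_num) ?_ ?_ hy hv hu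
        · rintro x rfl; exact pure_evt d
        · rintro x rfl r; exact Submodule.subset_span ⟨r, rfl⟩
      · intro h
        obtain ⟨y, v, hy, hv, rfl⟩ := i6 (by omega)
        have := pure_lie2 d (s := Set.range fun r => ⁅d.t, d.c r⁆) (i := 5) (by norm_num) ?_
          (S' := ⊥) ?_ hy hv hu
        · exact (Submodule.mem_bot k).1 this
        · rintro x ⟨r, rfl⟩
          have := (pure_evt d).lie (pure_evc d r)
          rwa [mul_one] at this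
        · rintro x ⟨s, rfl⟩ r
          exact (Submodule.mem_bot k).2 (pure_zero d hP s r)
      · intro h
        exact ⟨z, u, i3 (by omega), hu, rfl⟩
      · intro h
        exact ⟨z, u, i5 (by omega), hu, rfl⟩
      · omega
  intro z hz
  exact (key 7 z hz).2.2.1 rfl

end Pool.Agent.Helper74.CA
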