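import Pool.Agent.Helper48.CA.ALT
import Pool.Agent.Helper35.CA.BC
import Pool.Agent.Helper46.CA.COMM
import Pool.Agent.Helper67.CA.COS
import Pool.Agent.Helper85.CA.CUB
import Pool.Agent.Helper81.CA.EBL
import Pool.Agent.Helper38.CA.EIG
import Pool.Agent.Helper94.CA.FIN
import Pool.Agent.Helper67.CA.FP
import Pool.Agent.Helper46.CA.GR
import Pool.Agent.Helper2.CA.M5
import Pool.Agent.Helper48.CA.M5A
import Pool.Agent.Helper48.CA.M5B
import Pool.Agent.Helper74.CA.MAINK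
import Pool.Agent.Helper48.CA.N4
import Pool.Agent.Helper48.CA.N4L
import Pool.Agent.Helper74.CA.PURE
import Pool.Agent.Helper33.CA.RED
import Pool.Agent.Helper15.CA.RR
import Pool.Agent.Helper38.CA.SPAN
import Pool.Agent.Helper67.CA.SYL
import Pool.Agent.Helper58.CA.TLC
import Pool.Agent.Helper91.CA.TLF
import Pool.Agent.Helper8.CA.TLT
import Pool.Agent.Helper55.CA.TOL
import Pool.Agent.Helper67.CA.TWO
import Pool.Agent.Helper74.CA.P3b
import Pool.Agent.Helper74.CA.YRb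

set_option autoImplicit false

namespace Pool.Agent.Helper74.CA

theorem t_FP : ST_FP := st_FP
theorem t_COS : ST_COS := st_COS t_FP
theorem t_SYL : ST_SYL := st_SYL t_FP
theorem t_TWO : ST_TWO := st_TWO t_COS
theorem t_COMM : ST_COMM := st_COMM
theorem t_CUB : ST_CUB := st_CUB t_COS t_COMM
theorem t_TLF : ST_TLF := st_TLF t_COMM
theorem t_TLT : ST_TLT := st_TLT t_COMM st_RR t_TLF
theorem t_TLC : ST_TLC := st_TLC t_COMM t_CUB
theorem t_TOL : ST_TOL := st_TOL t_COMM st_GR t_CUB t_TLT t_TLC t_TLF t_COS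
theorem t_RED : ST_RED := Pool.Agent.Helper33.CA.st_RED t_COS t_COMM t_CUB st_EBL
theorem t_N4L : ST_N4L := st_N4L st_N4
theorem t_M5A : ST_M5A := st_M5A t_N4L
theorem t_M5B : ST_M5B := st_M5B t_N4L st_ALT
theorem t_M5 : ST_M5 := st_M5 t_N4L t_M5A t_M5B
theorem t_YR : ST_YR := yrb_YR yrb_LEMB
theorem t_SPAN : ST_SPAN := st_SPAN st_EIG t_M5 t_YR
theorem t_MAINK : ST_MAINK := st_MAINK t_COMM t_CUB t_TOL p3b_P3 st_BC t_SPAN st_PURE
theorem t_THREE : ST_THREE := st_THREE t_RED t_MAINK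
theorem t_FIN : ST_FIN := st_FIN t_SYL t_TWO t_THREE

end Pool.Agent.Helper74.CA
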