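import Pool.Agent.Helper74.CA.Stmts

set_option autoImplicit false

namespace Pool.Agent.Helper74.CA

theorem st_MAINK (h1 : ST_COMM) (h2 : ST_CUB) (h3 : ST_TOL) (h4 : ST_P3) (h5 : ST_BC)
    (h6 : ST_SPAN) (h7 : ST_PURE) : ST_MAINK := by
  intro K _ _ a n e hnil hKB hgen hEB x
  obtain ⟨c1, c2, c3, c4, c5, c6, c7, c8⟩ := h1 K
  obtain ⟨L, _, _, d, cl, hcub, hcl⟩ := h3 K a n e hKB hgen hEB
  obtain ⟨k, _, _, L', _, _, d', j, hP3, hj, hjG⟩ := h5 L n d (h4 L n d hcub)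
  have hG7 : ∀ z ∈ d'.G 7, z = 0 := by
    intro z hz
    have h := h6 k L' n d' z hz
    have h0 : Submodule.span k {z | PP d' 7 z} = ⊥ := by
      rw [Submodule.span_eq_bot]
      intro y hy
      exact h7 k L' n d' hP3 y hy
    rw [h0] at h
    exact (Submodule.mem_bot k).1 h
  have hle : gm K 7 ≤ gm K 8 := by
    intro y hy
    obtain ⟨e1, e2⟩ := hcl y hy
    apply e2
    apply hj
    rw [map_zero]
    exact hG7 _ (hjG 7 _ e1)
  have hbot : gm K 7 = ⊥ := c8 hnil 7 hle (by norm_num)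
  have x1 : x ∈ gm K 1 := by rw [c4]; exact Subgroup.mem_top x
  have x3 := h2 K a n hKB 1 x x1
  have x9 := h2 K a n hKB 3 _ x3
  have x7 := c5 7 (3 * 3) (by norm_num) x9
  rw [hbot, Subgroup.mem_bot, ← pow_mul] at x7
  exact x7

theorem st_THREE (h1 : ST_RED) (h2 : ST_MAINK) : ST_THREE := by
  intro P _ _ a n hP hKB g
  obtain ⟨K, _, _, b, e, j, hnil, hK, hgen, hEB, hinj, u, hu⟩ := h1 P a n hP hKB g
  have h := h2 K b n e hnil hK hgen hEB u
  have h3 : g ^ 27 = (g ^ 3) ^ 9 := by rw [← pow_mul]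
  rw [h3, ← hu, ← map_pow, h, map_one]

end Pool.Agent.Helper74.CA
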