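import Mathlib

/-!
MP_cb0591_al: finite groups with a coprime automorphism `a` such that the elements fixed by `a` and
the elements `x⁻¹ a(x)` have order dividing `m`; the case where `m` divides `6`.
Definitions and statements of the modules.
-/

set_option autoImplicit false

namespace Pool.Agent.Helper74.CA

open Subgroup

open scoped commutatorElement

/-! ## Coprime action -/

/-- fixed points in a transitive coprime action -/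
def ST_FP : Prop := ∀ (G Ω : Type) [Group G] [Finite G] [Finite Ω] [Nonempty Ω] [MulAction G Ω]
  (a : MulAut G) (α : Ω → Ω) (n : ℕ), (∀ x y : Ω, ∃ g : G, g • x = y) → a ^ n = 1 →
  (∀ x, α^[n] x = x) → n.Coprime (Nat.card G) → (∀ (g : G) (x : Ω), α (g • x) = a g • α x) →
  ∃ x, α x = x

/-- fixed points in invariant cosets -/
def ST_COS : Prop := ∀ (G : Type) [Group G] [Finite G] (a : MulAut G) (n : ℕ) (N : Subgroup G),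
  a ^ n = 1 → n.Coprime (Nat.card N) → (∀ x ∈ N, a x ∈ N) → ∀ x, x⁻¹ * a x ∈ N →
  ∃ m ∈ N, a (x * m) = x * m

/-- an invariant Sylow subgroup -/
def ST_SYL : Prop := ∀ (G : Type) [Group G] [Finite G] (a : MulAut G) (n p : ℕ), p.Prime →
  a ^ n = 1 → n.Coprime (Nat.card G) → ∃ P : Subgroup G, IsPGroup p P ∧ (∀ x ∈ P, a x ∈ P) ∧
    (p ∣ Nat.card G → P ≠ ⊥) ∧ ∀ g : G, (∃ j : ℕ, g ^ (p ^ j) = 1) → ∃ h, h * g * h⁻¹ ∈ P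

/-- the case `m = 2` -/
def ST_TWO : Prop := ∀ (P : Type) [Group P] [Finite P] (a : MulAut P) (n : ℕ), a ^ n = 1 →
  n.Coprime (Nat.card P) → (∀ x, a x = x → x ^ 2 = 1) → (∀ x, (x⁻¹ * a x) ^ 2 = 1) →
  ∀ g : P, g ^ 4 = 1

/-! ## The lower central series -/

/-- the lower central series numbered from `1` (and `gm K 0 = ⊤`) -/
def gm (K : Type) [Group K] (i : ℕ) : Subgroup K := (⊤ : Subgroup K).lowerCentralSeries (i - 1)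

def ST_COMM : Prop := ∀ (K : Type) [Group K],
  (∀ i j : ℕ, ⁅gm K i, gm K j⁆ ≤ gm K (i + j)) ∧
  (∀ i, 1 ≤ i → gm K (i + 1) = ⁅gm K i, (⊤ : Subgroup K)⁆) ∧ gm K 0 = ⊤ ∧ gm K 1 = ⊤ ∧
  (∀ i j, i ≤ j → gm K j ≤ gm K i) ∧ (∀ i, (gm K i).Normal) ∧
  (∀ (f : K →* K) (i : ℕ), ∀ x ∈ gm K i, f x ∈ gm K i) ∧
  (Group.IsNilpotent K → ∀ i, gm K i ≤ gm K (i + 1) → 1 ≤ i → gm K i = ⊥)

/-- the associated graded Lie algebra of the lower central series -/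
structure CL (K : Type) [Group K] (L : Type) [LieRing L] [LieAlgebra (ZMod 3) L] where
  cl : ℕ → K → L
  add : ∀ i x y, x ∈ gm K i → y ∈ gm K i → cl i (x * y) = cl i x + cl i y
  zero : ∀ i x, x ∈ gm K i → (cl i x = 0 ↔ x ∈ gm K (i + 1))
  lie : ∀ i j x y, x ∈ gm K i → y ∈ gm K j → ⁅cl i x, cl j y⁆ = cl (i + j) ⁅x, y⁆
  span : Submodule.span (ZMod 3) {l | ∃ i x, x ∈ gm K i ∧ l = cl i x} = ⊤
  map : ∀ f : K →* K, ∃ F : L →ₗ[ZMod 3] L, (∀ x y, F ⁅x, y⁆ = ⁅F x, F y⁆) ∧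
    ∀ i x, x ∈ gm K i → F (cl i x) = cl i (f x)

def ST_GR : Prop := ∀ (K : Type) [Group K], (∀ i, ∀ x ∈ gm K i, x ^ 3 ∈ gm K (i + 1)) →
  ∃ (L : Type) (_ : LieRing L) (_ : LieAlgebra (ZMod 3) L), Nonempty (CL K L)

/-! ## The group of exponent three type -/

/-- the base data -/
structure KB (K : Type) [Group K] (a : MulAut K) (n : ℕ) : Prop where
  an : a ^ n = 1
  n3 : ¬ 3 ∣ n
  cop : n.Coprime (Nat.card K)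
  cs : ∀ x, (x⁻¹ * a x) ^ 3 = 1
  cc : ∀ x, a x = x → x ^ 3 = 1

/-- the group is generated by the elements `x⁻¹ a(x)` -/
def Gen (K : Type) [Group K] (a : MulAut K) : Prop := closure {y | ∃ x, y = x⁻¹ * a x} = ⊤

/-- the eigenspace for `-1` on the abelianization is generated by three elements -/
structure EB (K : Type) [Group K] (a : MulAut K) (e : Fin 3 → K) : Prop where
  neg : ∀ i, a (e i) * e i ∈ gm K 2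
  span : ∀ x, a x * x ∈ gm K 2 → ∃ i j l : ℕ, (e 0 ^ i * e 1 ^ j * e 2 ^ l)⁻¹ * x ∈ gm K 2

/-- cubes -/
def ST_CUB : Prop := ∀ (K : Type) [Group K] [Finite K] (a : MulAut K) (n : ℕ), KB K a n →
  ∀ (i : ℕ), ∀ x ∈ gm K i, x ^ 3 ∈ gm K (3 * i)

/-- the basic relation -/
def ST_RR : Prop := ∀ (K : Type) [Group K] (a : MulAut K) (n : ℕ), KB K a n →
  ∀ x y : K, ⁅⁅x⁻¹ * a x, y⁻¹ * a y⁆, (y⁻¹ * a y) * (x⁻¹ * a x)⁆ = 1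

/-- the identity T -/
def ST_TLT : Prop := ∀ (K : Type) [Group K] [Finite K] (a : MulAut K) (n : ℕ), KB K a n →
  Gen K a → ∀ (L : Type) [LieRing L] [LieAlgebra (ZMod 3) L] (C : CL K L) (i : ℕ), 1 ≤ i →
  ∀ x ∈ gm K i, ∀ y z : K, ⁅⁅C.cl i (x⁻¹ * a x), C.cl 1 y⁆, C.cl 1 z⁆ +
    ⁅⁅C.cl i (x⁻¹ * a x), C.cl 1 z⁆, C.cl 1 y⁆ = 0

/-- the cubic identity -/
def ST_TLC : Prop := ∀ (K : Type) [Group K] [Finite K] (a : MulAut K) (n : ℕ), KB K a n →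
  ∀ (L : Type) [LieRing L] [LieAlgebra (ZMod 3) L] (C : CL K L) (z c : K), c ∈ gm K 2 → a c = c →
  ⁅⁅⁅C.cl 1 z, C.cl 2 c⁆, C.cl 2 c⁆, C.cl 2 c⁆ = 0

/-- no fixed points on the abelianization -/
def ST_TLF : Prop := ∀ (K : Type) [Group K] [Finite K] (a : MulAut K) (n : ℕ), KB K a n →
  Gen K a → (∀ x, a x * x⁻¹ ∈ gm K 2 → x ∈ gm K 2) ∧ ∀ x, ∃ y, x⁻¹ * (y⁻¹ * a y) ∈ gm K 2

/-! ## Lie algebras -/

/-- the Lie algebra data: a graded Lie algebra generated by `G 1` in characteristic `3` with an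
automorphism `a` of order prime to `3` without fixed points on `G 1`, such that
`[X, y, z] + [X, z, y] = 0` for `X = a x - x`, and the eigenspace of `-1` on `G 1` is spanned
by `e 0, e 1, e 2` -/
structure LB (k : Type) [Field k] (L : Type) [LieRing L] [LieAlgebra k L] (n : ℕ) where
  G : ℕ → Submodule k L
  a : L →ₗ[k] L
  e : Fin 3 → L
  an : a ^ n = 1
  n0 : (n : k) ≠ 0
  c3 : (3 : k) = 0
  aG : ∀ i, ∀ x ∈ G i, a x ∈ G i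
  alie : ∀ x y, a ⁅x, y⁆ = ⁅a x, a y⁆
  glie : ∀ i j, ∀ x ∈ G i, ∀ y ∈ G j, ⁅x, y⁆ ∈ G (i + j)
  gen : ∀ i, 1 ≤ i → ∀ x ∈ G (i + 1), x ∈ Submodule.span k {z | ∃ u ∈ G i, ∃ v ∈ G 1, z = ⁅u, v⁆}
  fix : ∀ x ∈ G 1, a x = x → x = 0
  T : ∀ i, 1 ≤ i → ∀ x ∈ G i, ∀ y ∈ G 1, ∀ z ∈ G 1, ⁅⁅a x - x, y⁆, z⁆ + ⁅⁅a x - x, z⁆, y⁆ = 0
  eG : ∀ i, e i ∈ G 1
  ea : ∀ i, a (e i) = -e i
  espan : ∀ x ∈ G 1, a x = -x → x ∈ Submodule.span k (Set.range e)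

section
variable {k : Type} [Field k] {L : Type} [LieRing L] [LieAlgebra k L] {n : ℕ}

/-- the cubic identity -/
def Cub (d : LB k L n) : Prop := ∀ z ∈ d.G 1, ∀ c ∈ d.G 2, d.a c = c → ⁅⁅⁅z, c⁆, c⁆, c⁆ = 0

/-- `t = [e 0, e 1, e 2]` -/
def LB.t (d : LB k L n) : L := ⁅⁅d.e 0, d.e 1⁆, d.e 2⁆

/-- the elements `[e 0, e 1], [e 1, e 2], [e 2, e 0]` -/
def LB.c (d : LB k L n) (i : Fin 3) : L := ⁅d.e i, d.e (i + 1)⁆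

/-- the consequence of the cubic identity -/
def P3 (d : LB k L n) : Prop := ∀ i j, ⁅⁅d.t, d.c i⁆, d.c j⁆ + ⁅⁅d.t, d.c j⁆, d.c i⁆ = 0

/-- eigenvectors -/
def Ev (d : LB k L n) (i : ℕ) (ζ : k) (x : L) : Prop := x ∈ d.G i ∧ d.a x = ζ • x

end

def ST_P3 : Prop := ∀ (L : Type) [LieRing L] [LieAlgebra (ZMod 3) L] (n : ℕ)
  (d : LB (ZMod 3) L n), Cub d → P3 d

/-- base change to an algebraically closed field -/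
def ST_BC : Prop := ∀ (L : Type) [LieRing L] [LieAlgebra (ZMod 3) L] (n : ℕ)
  (d : LB (ZMod 3) L n), P3 d → ∃ (k : Type) (_ : Field k) (_ : IsAlgClosed k) (L' : Type)
    (_ : LieRing L') (_ : LieAlgebra k L') (d' : LB k L' n) (j : L →+ L'), P3 d' ∧
    Function.Injective j ∧ ∀ i, ∀ x ∈ d.G i, j x ∈ d'.G i

/-- `G 1` is spanned by eigenvectors -/
def ST_EIG : Prop := ∀ (k : Type) [Field k] [IsAlgClosed k] (L : Type) [LieRing L] [LieAlgebra k L]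
  (n : ℕ) (d : LB k L n), ∀ x ∈ d.G 1, x ∈ Submodule.span k {v | ∃ ζ : k, ζ ≠ 1 ∧ Ev d 1 ζ v}

/-- four vectors with sum zero, some of them equal -/
def ST_N4 : Prop := ∀ (k L : Type) [Field k] [AddCommGroup L] [Module k L] (h1 h2 h3 h4 : L)
  (z1 z2 z3 z4 : k), (3 : k) = 0 → z1 ≠ 1 → z2 ≠ 1 → z3 ≠ 1 → z4 ≠ 1 → h1 + h2 + h3 + h4 = 0 →
  (z1 * z2 ≠ 1 → h3 = h4) → (z3 * z4 ≠ 1 → h1 = h2) → (z1 * z3 ≠ 1 → h2 = h4) →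
  (z2 * z4 ≠ 1 → h1 = h3) → (z1 * z4 ≠ 1 → h2 = h3) → (z2 * z3 ≠ 1 → h1 = h4) → h4 ≠ 0 →
  (z4 = -1 ∧ ((z1 = -1 ∧ z2 = -1) ∨ (z1 = -1 ∧ z3 = -1) ∨ (z2 = -1 ∧ z3 = -1))) ∨
  (z1 * z1 ≠ 1 ∧ z1 = z2 ∧ z3 = z4 ∧ z1 * z3 = 1) ∨
  (z1 * z1 ≠ 1 ∧ z1 = z3 ∧ z2 = z4 ∧ z1 * z2 = 1) ∨
  (z1 * z1 ≠ 1 ∧ z1 = z4 ∧ z2 = z3 ∧ z1 * z2 = 1)

/-- weight four -/
def ST_N4L : Prop := ∀ (k : Type) [Field k] (L : Type) [LieRing L] [LieAlgebra k L]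
  (n : ℕ) (d : LB k L n) (v1 v2 v3 v4 : L) (z1 z2 z3 z4 : k), z1 ≠ 1 → z2 ≠ 1 → z3 ≠ 1 → z4 ≠ 1 →
  Ev d 1 z1 v1 → Ev d 1 z2 v2 → Ev d 1 z3 v3 → Ev d 1 z4 v4 →
  (z1 * z2 ≠ 1 → ⁅⁅⁅v1, v2⁆, v3⁆, v4⁆ = -⁅⁅⁅v1, v2⁆, v4⁆, v3⁆) ∧
  (⁅⁅⁅v1, v2⁆, v3⁆, v4⁆ - ⁅⁅⁅v1, v2⁆, v4⁆, v3⁆ + ⁅⁅⁅v1, v3⁆, v4⁆, v2⁆ - ⁅⁅⁅v2, v3⁆, v4⁆, v1⁆ = 0) ∧
  (⁅⁅⁅v1, v2⁆, v3⁆, v4⁆ ≠ 0 →
  (z4 = -1 ∧ ((z1 = -1 ∧ z2 = -1) ∨ (z1 = -1 ∧ z3 = -1) ∨ (z2 = -1 ∧ z3 = -1))) ∨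
  (z1 * z1 ≠ 1 ∧ z1 = z2 ∧ z3 = z4 ∧ z1 * z3 = 1) ∨
  (z1 * z1 ≠ 1 ∧ z1 = z3 ∧ z2 = z4 ∧ z1 * z2 = 1) ∨
  (z1 * z1 ≠ 1 ∧ z1 = z4 ∧ z2 = z3 ∧ z1 * z2 = 1))

/-- alternating forms in four variables on a space of dimension three -/
def ST_ALT : Prop := ∀ (k L : Type) [Field k] [AddCommGroup L] [Module k L] (E : Submodule k L)
  (e : Fin 3 → L) (B : L → L → L → L → L), (2 : k) ≠ 0 → (∀ x ∈ E, x ∈ Submodule.span k (Set.range e)) →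
  (∀ x y z w w', B x y z (w + w') = B x y z w + B x y z w') →
  (∀ x y z w, ∀ r : k, B x y z (r • w) = r • B x y z w) →
  (∀ x ∈ E, ∀ y ∈ E, ∀ z ∈ E, ∀ w ∈ E, B y x z w = -B x y z w) →
  (∀ x ∈ E, ∀ y ∈ E, ∀ z ∈ E, ∀ w ∈ E, B x z y w = -B x y z w) →
  (∀ x ∈ E, ∀ y ∈ E, ∀ z ∈ E, ∀ w ∈ E, B x y w z = -B x y z w) →
  ∀ x ∈ E, ∀ y ∈ E, ∀ z ∈ E, ∀ w ∈ E, B x y z w = 0

/-- weight five, first case -/
def ST_M5A : Prop := ∀ (k : Type) [Field k] (L : Type) [LieRing L] [LieAlgebra k L]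
  (n : ℕ) (d : LB k L n) (v1 v2 v3 v4 v5 : L) (b c z5 : k), b ≠ 1 → c ≠ 1 → z5 ≠ 1 →
  Ev d 1 b v1 → Ev d 1 b v2 → Ev d 1 c v3 → Ev d 1 c v4 → Ev d 1 z5 v5 → b * b ≠ 1 → b * c = 1 →
  ⁅⁅⁅⁅v1, v2⁆, v3⁆, v4⁆, v5⁆ = 0

/-- weight five, second case -/
def ST_M5B : Prop := ∀ (k : Type) [Field k] (L : Type) [LieRing L] [LieAlgebra k L]
  (n : ℕ) (d : LB k L n) (v1 v2 v3 v4 v5 : L) (x z5 : k), x ≠ 1 → x ≠ -1 → z5 ≠ 1 →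
  Ev d 1 (-1) v1 → Ev d 1 (-1) v2 → Ev d 1 x v3 → Ev d 1 (-1) v4 → Ev d 1 z5 v5 →
  ⁅⁅⁅⁅v1, v2⁆, v3⁆, v4⁆, v5⁆ = 0

/-- weight five -/
def ST_M5 : Prop := ∀ (k : Type) [Field k] (L : Type) [LieRing L] [LieAlgebra k L]
  (n : ℕ) (d : LB k L n) (v1 v2 v3 v4 v5 : L) (z1 z2 z3 z4 z5 : k), z1 ≠ 1 → z2 ≠ 1 → z3 ≠ 1 →
  z4 ≠ 1 → z5 ≠ 1 → Ev d 1 z1 v1 → Ev d 1 z2 v2 → Ev d 1 z3 v3 → Ev d 1 z4 v4 → Ev d 1 z5 v5 →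
  ⁅⁅⁅⁅v1, v2⁆, v3⁆, v4⁆, v5⁆ ≠ 0 → z1 = -1 ∧ z2 = -1 ∧ z3 = -1 ∧ z4 = -1 ∧ z5 = -1

/-- three vectors of `G 1` with eigenvalue `-1` -/
def ST_LEMB : Prop := ∀ (k : Type) [Field k] (L : Type) [LieRing L] [LieAlgebra k L]
  (n : ℕ) (d : LB k L n) (u1 u2 u3 w : L) (i : ℕ) (x : k), 1 ≤ i → x ≠ 1 → x ≠ -1 →
  Ev d 1 (-1) u1 → Ev d 1 (-1) u2 → Ev d 1 (-1) u3 → Ev d i x w → ⁅⁅⁅u1, u2⁆, u3⁆, w⁆ = 0

section
variable {k : Type} [Field k] {L : Type} [LieRing L] [LieAlgebra k L] {n : ℕ}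

/-- products of at least three eigenvectors for `-1` -/
inductive PP (d : LB k L n) : ℕ → L → Prop
  | three : ∀ u1 u2 u3, Ev d 1 (-1) u1 → Ev d 1 (-1) u2 → Ev d 1 (-1) u3 → PP d 3 ⁅⁅u1, u2⁆, u3⁆
  | succ : ∀ j z u, PP d j z → Ev d 1 (-1) u → PP d (j + 1) ⁅z, u⁆

end

/-- longer products -/
def ST_YR : Prop := ∀ (k : Type) [Field k] (L : Type) [LieRing L] [LieAlgebra k L]
  (n : ℕ) (d : LB k L n) (j : ℕ) (z w : L) (i : ℕ) (x : k), PP d j z → 1 ≤ i → x ≠ 1 → x ≠ -1 →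
  Ev d i x w → ⁅z, w⁆ = 0

/-- weight seven -/
def ST_SPAN : Prop := ∀ (k : Type) [Field k] [IsAlgClosed k] (L : Type) [LieRing L] [LieAlgebra k L]
  (n : ℕ) (d : LB k L n), ∀ x ∈ d.G 7, x ∈ Submodule.span k {z | PP d 7 z}

/-- the pure part -/
def ST_PURE : Prop := ∀ (k : Type) [Field k] (L : Type) [LieRing L] [LieAlgebra k L]
  (n : ℕ) (d : LB k L n), P3 d → ∀ z, PP d 7 z → z = 0

/-- the Lie algebra attached to the group -/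
def ST_TOL : Prop := ∀ (K : Type) [Group K] [Finite K] (a : MulAut K) (n : ℕ) (e : Fin 3 → K),
  KB K a n → Gen K a → EB K a e → ∃ (L : Type) (_ : LieRing L) (_ : LieAlgebra (ZMod 3) L)
    (d : LB (ZMod 3) L n) (cl : K → L), Cub d ∧
    ∀ x ∈ gm K 7, cl x ∈ d.G 7 ∧ (cl x = 0 → x ∈ gm K 8)

/-- the main statement on the group `K` -/
def ST_MAINK : Prop := ∀ (K : Type) [Group K] [Finite K] (a : MulAut K) (n : ℕ) (e : Fin 3 → K),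
  Group.IsNilpotent K → KB K a n → Gen K a → EB K a e → ∀ x : K, x ^ 9 = 1

/-- linear algebra on the abelianization -/
def ST_EBL : Prop := ∀ (K : Type) [Group K] (a t : MulAut K) (n : ℕ) (w : K), a ^ n = 1 → ¬ 3 ∣ n →
  (∀ x : K, x ^ 3 ∈ gm K 2) → (∀ x, t (a x) * (a (t x))⁻¹ ∈ gm K 2) →
  (∀ x, t (t (t x)) * x⁻¹ ∈ gm K 2) →
  closure {y | ∃ i j : ℕ, y = (t ^ j) ((a ^ i) w)} ⊔ gm K 2 = ⊤ → ∃ e : Fin 3 → K, EB K a e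

/-- reduction to the group `K` -/
def ST_RED : Prop := ∀ (P : Type) [Group P] [Finite P] (a : MulAut P) (n : ℕ), IsPGroup 3 P →
  KB P a n → ∀ g : P, ∃ (K : Type) (_ : Group K) (_ : Finite K) (b : MulAut K) (e : Fin 3 → K)
    (j : K →* P), Group.IsNilpotent K ∧ KB K b n ∧ Gen K b ∧ EB K b e ∧ Function.Injective j ∧
    ∃ u : K, j u = g ^ 3

/-- the case `m = 3` -/
def ST_THREE : Prop := ∀ (P : Type) [Group P] [Finite P] (a : MulAut P) (n : ℕ), IsPGroup 3 P →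
  KB P a n → ∀ g : P, g ^ 27 = 1

/-- the theorem -/
def ST_FIN : Prop := ∀ (G : Type) [Group G] [Finite G] (a : MulAut G) (m : ℕ), 0 < m →
  (orderOf a).Coprime (Nat.card G) → (∀ x, a x = x → x ^ m = 1) → (∀ x, (x⁻¹ * a x) ^ m = 1) →
  (m ∣ 6 → Monoid.exponent G ∣ 108) ∧
  (¬ 4 ∣ m → ∀ (g : G) (j : ℕ), g ^ (2 ^ j) = 1 → g ^ 4 = 1) ∧
  (¬ 9 ∣ m → ∀ (g : G) (j : ℕ), g ^ (3 ^ j) = 1 → g ^ 27 = 1)

end Pool.Agent.Helper74.CA
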