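import Pool.Agent.Helper74.CA.Lib

set_option autoImplicit false

namespace Pool.Agent.Helper74.CA

theorem yrb_LEMB : ST_LEMB := by
  intro k _ L _ _ n d u1 u2 u3 w i x hi hx1 hx2 h1 h2 h3 hw
  have hx3 : x * -1 ≠ 1 := by
    intro h
    exact hx2 (by linear_combination -h)
  -- brackets with two elements
  have two : ∀ {j : ℕ} {z : L} {y : k}, 1 ≤ j → y ≠ 1 → Ev d j y z → ∀ u v, u ∈ d.G 1 → v ∈ d.G 1 →
      ⁅z, ⁅u, v⁆⁆ = -⁅⁅z, u⁆, v⁆ := by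
    intro j z y hj hy hz u v hu hv
    have e1 := d.Tev hj hy hz hv hu
    have e2 := jac z u v
    rw [e1] at e2
    have e3 := d.three ⁅⁅z, u⁆, v⁆
    have e4 : ⁅z, ⁅u, v⁆⁆ = ⁅⁅z, u⁆, v⁆ + ⁅⁅z, u⁆, v⁆ := by
      nth_rewrite 1 [e2]
      abel
    rw [e4]
    exact (neg_eq_of_add_eq_zero_left e3).symm
  have hw3 : Ev d (i + 1) (x * -1) ⁅w, u3⁆ := hw.lie h3
  have hw1 : Ev d (i + 1) (x * -1) ⁅w, u1⁆ := hw.lie h1
  -- [w, [[u1, u2], u3]]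
  have a1 := jac w ⁅u1, u2⁆ u3
  rw [two hi hx1 hw u1 u2 h1.1 h2.1] at a1
  have a2 := two (by omega) hx3 hw3 u1 u2 h1.1 h2.1
  -- cyclic
  have a3 : ⁅⁅⁅w, u3⁆, u1⁆, u2⁆ = ⁅⁅⁅w, u1⁆, u2⁆, u3⁆ := by
    rw [d.Tev hi hx1 hw h3.1 h1.1, neg_lie, d.Tev (by omega) hx3 hw1 h3.1 h2.1, neg_neg]
  have a4 : ⁅w, ⁅⁅u1, u2⁆, u3⁆⁆ = 0 := by
    rw [a2, a3, neg_lie] at a1
    exact left_eq_add.1 a1
  rw [← lie_skew, a4, neg_zero]

theorem yrb_YR (h1 : ST_LEMB) : ST_YR := by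
  intro k _ L _ _ n d j z w i x hz
  induction hz generalizing w i x with
  | three u1 u2 u3 e1 e2 e3 =>
    intro hi hx1 hx2 hw
    exact h1 k L n d u1 u2 u3 w i x hi hx1 hx2 e1 e2 e3 hw
  | succ j z u hz hu ih =>
    intro hi hx1 hx2 hw
    rw [jac z u w, ih w i x hi hx1 hx2 hw, zero_lie, zero_add]
    have hx3 : -1 * x ≠ 1 := by
      intro h
      exact hx2 (by linear_combination -h)
    have hx4 : -1 * x ≠ -1 := by
      intro h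
      exact hx1 (by linear_combination -h)
    exact ih ⁅u, w⁆ (1 + i) (-1 * x) (by omega) hx3 hx4 (hu.lie hw)

end Pool.Agent.Helper74.CA
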